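import Pool.Agent.TH931.LP.StmC

/-!
# LP931, Z6: certificates of the cubes (helper656)
-/

set_option autoImplicit false

open MeasureTheory Set
open scoped ENNReal Matrix Pointwise

noncomputable section

namespace Pool.Agent.TH656.LP931

open Pool.Agent.TH931.LP

/-! ### the selected pair -/

theorem selP_ne {c : ℕ} {i j : Fin (c + 1)} {b : Fin (c + 1) → ℝ} (h : selP i j b) : i ≠ j := by
  rintro rfl
  exact lt_irrefl _ h.1

theorem selP_min {c : ℕ} {i j : Fin (c + 1)} {b : Fin (c + 1) → ℝ} (h : selP i j b)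
    {l : Fin (c + 1)} (hl : l ≠ i) : |b i| < |b l| := by
  by_cases hj : l = j
  · rw [hj]; exact h.1
  · exact h.1.trans (h.2 l hl hj)

theorem selP_unique {c : ℕ} {i j i' j' : Fin (c + 1)} {b : Fin (c + 1) → ℝ} (h : selP i j b)
    (h' : selP i' j' b) : i' = i ∧ j' = j := by
  have hi : i' = i := by
    by_contra hne
    exact lt_asymm (selP_min h hne) (selP_min h' (Ne.symm hne))
  subst hi
  refine ⟨rfl, ?_⟩
  by_contra hne
  exact lt_asymm (h.2 j' (selP_ne h').symm hne) (h'.2 j (selP_ne h).symm (Ne.symm hne))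

open Classical in
theorem sum_sel {c : ℕ} {M : Type} [AddCommMonoid M] {i j : Fin (c + 1)} {b : Fin (c + 1) → ℝ}
    (h : selP i j b) (f : Fin (c + 1) → Fin (c + 1) → M) :
    ∑ i', ∑ j', (if selP i' j' b then f i' j' else 0) = f i j := by
  rw [Finset.sum_eq_single i, Finset.sum_eq_single j]
  · rw [if_pos h]
  · intro j' _ hj'
    rw [if_neg]
    intro h'
    exact hj' (selP_unique h h').2
  · simp
  · intro i' _ hi'
    refine Finset.sum_eq_zero fun j' _ => ?_
    rw [if_neg]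
    intro h'
    exact hi' (selP_unique h h').1
  · simp

theorem lamC_eq {c : ℕ} {i j : Fin (c + 1)} {b : Fin (c + 1) → ℝ} (hb : b ∈ Zc c)
    (h : selP i j b) (a : Fin (c + 1) × Bool) : lamC c b a = lamPair i j b a := by
  unfold lamC
  rw [if_pos hb]
  exact sum_sel h fun i' j' => lamPair i' j' b a

theorem LZC_eq {c : ℕ} {i j : Fin (c + 1)} {b : Fin (c + 1) → ℝ}
    (h : selP i j b) : LZC c b = LZPair i j b := by
  unfold LZC
  exact sum_sel h fun i' j' => LZPair i' j' b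

/-! ### the identity -/

theorem sum_split {c : ℕ} {i j : Fin (c + 1)} (h : i ≠ j) (f : Fin (c + 1) → ℝ) :
    ∑ l, f l = f i + f j + ∑ l ∈ (Finset.univ.erase i).erase j, f l := by
  rw [← Finset.add_sum_erase Finset.univ f (Finset.mem_univ i),
    ← Finset.add_sum_erase (Finset.univ.erase i) f (a := j)
      (Finset.mem_erase.2 ⟨h.symm, Finset.mem_univ j⟩), add_assoc]

theorem sP_eq {c : ℕ} {i j : Fin (c + 1)} (h : i ≠ j) (b : Fin (c + 1) → ℝ) :
    sP i j b = (1 - ∑ l, |b l|) + |b i| + |b j| := by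
  unfold sP
  rw [sum_split h fun l => |b l|]
  ring

theorem sq_prod (x y : ℝ) (s : ℝ) :
    (s ^ 2 - (x + y) ^ 2) * (s ^ 2 - (x - y) ^ 2) =
      (s ^ 2 - (|x| + |y|) ^ 2) * (s ^ 2 - (|x| - |y|) ^ 2) := by
  have hx : |x| ^ 2 = x ^ 2 := sq_abs x
  have hy : |y| ^ 2 = y ^ 2 := sq_abs y
  have e1 : (s ^ 2 - (x + y) ^ 2) * (s ^ 2 - (x - y) ^ 2) =
      s ^ 4 - s ^ 2 * (2 * x ^ 2 + 2 * y ^ 2) + (x ^ 2 - y ^ 2) ^ 2 := by ring
  have e2 : (s ^ 2 - (|x| + |y|) ^ 2) * (s ^ 2 - (|x| - |y|) ^ 2) =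
      s ^ 4 - s ^ 2 * (2 * |x| ^ 2 + 2 * |y| ^ 2) + (|x| ^ 2 - |y| ^ 2) ^ 2 := by ring
  rw [e1, e2, hx, hy]

theorem abs_add_lt {x y s : ℝ} (h : |x| + |y| < s) : (x + y) ^ 2 < s ^ 2 ∧ (x - y) ^ 2 < s ^ 2 := by
  have h0 : 0 ≤ |x| + |y| := by positivity
  have hs : 0 < s := lt_of_le_of_lt h0 h
  constructor
  · rw [sq_lt_sq, abs_of_pos hs]
    exact lt_of_le_of_lt (abs_add_le x y) h
  · rw [sq_lt_sq, abs_of_pos hs]
    exact lt_of_le_of_lt (abs_sub x y) h

theorem pair_identity {c : ℕ} {i j : Fin (c + 1)} (hij : i ≠ j) {b : Fin (c + 1) → ℝ}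
    (hs : ∑ l, |b l| < 1) (h0 : ∀ l, b l ≠ 0) :
    LZPair i j b + gain |b i| |b j| (1 - ∑ l, |b l|) =
      (∑ l, -Real.log |b l|) + -Real.log (1 - ∑ l, |b l|) := by
  set ρ : ℝ := 1 - ∑ l, |b l| with hρ
  have hρ0 : 0 < ρ := by rw [hρ]; linarith
  have hx : 0 < |b i| := abs_pos.2 (h0 i)
  have hy : 0 < |b j| := abs_pos.2 (h0 j)
  have hsP : sP i j b = ρ + |b i| + |b j| := sP_eq hij b
  set s : ℝ := sP i j b with hsdef
  have hs0 : 0 < s := by rw [hsP]; positivity
  have hlt : |b i| + |b j| < s := by rw [hsP]; linarith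
  obtain ⟨q1, q2⟩ := abs_add_lt hlt
  have d1 : 1 - ((b i + b j) / s) ^ 2 = (s ^ 2 - (b i + b j) ^ 2) / s ^ 2 := by
    field_simp
  have d2 : 1 - ((b i - b j) / s) ^ 2 = (s ^ 2 - (b i - b j) ^ 2) / s ^ 2 := by
    field_simp
  have p1 : 0 < s ^ 2 - (b i + b j) ^ 2 := by linarith
  have p2 : 0 < s ^ 2 - (b i - b j) ^ 2 := by linarith
  set x := |b i| with hxd
  set y := |b j| with hyd
  have key : Real.log (s ^ 2 - (b i + b j) ^ 2) + Real.log (s ^ 2 - (b i - b j) ^ 2) =
      Real.log ρ + Real.log (ρ + 2 * x + 2 * y) + Real.log (ρ + 2 * y) + Real.log (ρ + 2 * x) := by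
    rw [← Real.log_mul p1.ne' p2.ne', sq_prod, ← hxd, ← hyd,
      ← Real.log_mul hρ0.ne' (by positivity), ← Real.log_mul (by positivity) (by positivity),
      ← Real.log_mul (by positivity) (by positivity)]
    congr 1
    rw [hsP]
    ring
  have l1 : Real.log (1 - ((b i + b j) / s) ^ 2) =
      Real.log (s ^ 2 - (b i + b j) ^ 2) - 2 * Real.log s := by
    rw [d1, Real.log_div p1.ne' (by positivity), Real.log_pow]; norm_num
  have l2 : Real.log (1 - ((b i - b j) / s) ^ 2) =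
      Real.log (s ^ 2 - (b i - b j) ^ 2) - 2 * Real.log s := by
    rw [d2, Real.log_div p2.ne' (by positivity), Real.log_pow]; norm_num
  have g1 : Real.log (1 + ρ / (2 * x)) = Real.log (ρ + 2 * x) - Real.log 2 - Real.log x := by
    rw [show 1 + ρ / (2 * x) = (ρ + 2 * x) / (2 * x) by field_simp; ring,
      Real.log_div (by positivity) (by positivity), Real.log_mul (by norm_num) hx.ne']
    ring
  have g2 : Real.log (1 + ρ / (2 * y)) = Real.log (ρ + 2 * y) - Real.log 2 - Real.log y := by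
    rw [show 1 + ρ / (2 * y) = (ρ + 2 * y) / (2 * y) by field_simp; ring,
      Real.log_div (by positivity) (by positivity), Real.log_mul (by norm_num) hy.ne']
    ring
  have g3 : Real.log (1 + ρ / (ρ + 2 * x + 2 * y)) = Real.log 2 + Real.log s -
      Real.log (ρ + 2 * x + 2 * y) := by
    rw [show 1 + ρ / (ρ + 2 * x + 2 * y) = (2 * s) / (ρ + 2 * x + 2 * y) by
      rw [hsP]; field_simp; ring,
      Real.log_div (by positivity) (by positivity), Real.log_mul (by norm_num) hs0.ne']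
  have h8 : Real.log 8 = 3 * Real.log 2 := by
    rw [show (8 : ℝ) = 2 ^ 3 by norm_num, Real.log_pow]; norm_num
  have hsum : (∑ l, -Real.log |b l|) = -Real.log x + -Real.log y +
      -(∑ l ∈ (Finset.univ.erase i).erase j, Real.log |b l|) := by
    rw [sum_split hij fun l => -Real.log |b l|, Finset.sum_neg_distrib]
  unfold LZPair gain
  rw [← hsdef, l1, l2, g1, g2, g3, h8, hsum]
  linarith [key]

theorem gain_nonneg {x y s : ℝ} (hx : 0 < x) (hy : 0 < y) (hs : 0 < s) : 0 ≤ gain x y s := by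
  unfold gain
  have h1 : 0 ≤ Real.log (1 + s / (2 * x)) := Real.log_nonneg (by
    have : 0 < s / (2 * x) := by positivity
    linarith)
  have h2 : Real.log (1 + s / (s + 2 * x + 2 * y)) ≤ Real.log (1 + s / (2 * y)) := by
    apply Real.log_le_log (by positivity)
    have : s / (s + 2 * x + 2 * y) ≤ s / (2 * y) := by
      apply div_le_div_of_nonneg_left hs.le (by positivity)
      linarith
    linarith
  linarith

theorem abs_le_sum {c : ℕ} (b : Fin (c + 1) → ℝ) (l : Fin (c + 1)) : |b l| ≤ ∑ l, |b l| :=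
  Finset.single_le_sum (f := fun l => |b l|) (fun _ _ => abs_nonneg _) (Finset.mem_univ l)

theorem LZPair_nonneg {c : ℕ} {i j : Fin (c + 1)} (hij : i ≠ j) {b : Fin (c + 1) → ℝ}
    (hs : ∑ l, |b l| < 1) (h0 : ∀ l, b l ≠ 0) : 0 ≤ LZPair i j b := by
  have hsP : sP i j b = (1 - ∑ l, |b l|) + |b i| + |b j| := sP_eq hij b
  have hx : 0 < |b i| := abs_pos.2 (h0 i)
  have hy : 0 < |b j| := abs_pos.2 (h0 j)
  have hs1 : sP i j b ≤ 1 := by
    unfold sP
    have : 0 ≤ ∑ l ∈ (Finset.univ.erase i).erase j, |b l| :=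
      Finset.sum_nonneg fun _ _ => abs_nonneg _
    linarith
  set s : ℝ := sP i j b with hsdef
  have hs0 : 0 < s := by rw [hsP]; linarith
  have hlt : |b i| + |b j| < s := by rw [hsP]; linarith
  obtain ⟨q1, q2⟩ := abs_add_lt hlt
  have e1 : Real.log (1 - ((b i + b j) / s) ^ 2) ≤ 0 := by
    apply Real.log_nonpos
    · rw [div_pow, sub_nonneg, div_le_one (by positivity)]
      exact q1.le
    · have : 0 ≤ ((b i + b j) / s) ^ 2 := sq_nonneg _
      linarith
  have e2 : Real.log (1 - ((b i - b j) / s) ^ 2) ≤ 0 := by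
    apply Real.log_nonpos
    · rw [div_pow, sub_nonneg, div_le_one (by positivity)]
      exact q2.le
    · have : 0 ≤ ((b i - b j) / s) ^ 2 := sq_nonneg _
      linarith
  have e3 : Real.log s ≤ 0 := Real.log_nonpos hs0.le hs1
  have e4 : 0 ≤ Real.log 8 := Real.log_nonneg (by norm_num)
  have e5 : ∑ l ∈ (Finset.univ.erase i).erase j, Real.log |b l| ≤ 0 := by
    apply Finset.sum_nonpos
    intro l _
    apply Real.log_nonpos (abs_nonneg _)
    exact (abs_le_sum b l).trans hs.le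
  unfold LZPair
  rw [← hsdef]
  linarith

/-! ### measurability -/

theorem measSel {c : ℕ} (i j : Fin (c + 1)) : MeasurableSet {b : Fin (c + 1) → ℝ | selP i j b} := by
  unfold selP
  have hm : ∀ i : Fin (c + 1), Measurable fun b : Fin (c + 1) → ℝ => |b i| := fun i =>
    (measurable_pi_apply i).abs
  refine (measurableSet_lt (hm i) (hm j)).inter ?_
  have : {b : Fin (c + 1) → ℝ | ∀ l, l ≠ i → l ≠ j → |b j| < |b l|} =
      ⋂ l, {b : Fin (c + 1) → ℝ | l ≠ i → l ≠ j → |b j| < |b l|} := by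
    ext b; simp
  change MeasurableSet {b : Fin (c + 1) → ℝ | ∀ l, l ≠ i → l ≠ j → |b j| < |b l|}
  rw [this]
  refine MeasurableSet.iInter fun l => ?_
  by_cases h1 : l ≠ i
  · by_cases h2 : l ≠ j
    · have : {b : Fin (c + 1) → ℝ | l ≠ i → l ≠ j → |b j| < |b l|} = {b | |b j| < |b l|} := by
        ext b; simp [h1, h2]
      rw [this]
      exact measurableSet_lt (hm j) (hm l)
    · have : {b : Fin (c + 1) → ℝ | l ≠ i → l ≠ j → |b j| < |b l|} = univ := by
        ext b; simp [h2]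
      rw [this]; exact MeasurableSet.univ
  · have : {b : Fin (c + 1) → ℝ | l ≠ i → l ≠ j → |b j| < |b l|} = univ := by
      ext b; simp [h1]
    rw [this]; exact MeasurableSet.univ

theorem meas_sumabs (n : ℕ) : Measurable fun b : Fin n → ℝ => ∑ i, |b i| :=
  Finset.measurable_sum _ fun i _ => (measurable_pi_apply i).abs

theorem measZc (c : ℕ) : MeasurableSet (Zc c) := by
  unfold Zc
  refine (measurableSet_lt (meas_sumabs _) measurable_const).inter (MeasurableSet.inter ?_ ?_)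
  · have : {b : Fin (c + 1) → ℝ | ∀ i, b i ≠ 0} = ⋂ i, {b : Fin (c + 1) → ℝ | b i ≠ 0} := by
      ext b; simp
    change MeasurableSet {b : Fin (c + 1) → ℝ | ∀ i, b i ≠ 0}
    rw [this]
    exact MeasurableSet.iInter fun i =>
      (measurableSet_eq_fun (measurable_pi_apply i) measurable_const).compl
  · have : {b : Fin (c + 1) → ℝ | ∃ i j, selP i j b} =
        ⋃ i, ⋃ j, {b : Fin (c + 1) → ℝ | selP i j b} := by
      ext b; simp
    change MeasurableSet {b : Fin (c + 1) → ℝ | ∃ i j, selP i j b}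
    rw [this]
    exact MeasurableSet.iUnion fun i => MeasurableSet.iUnion fun j => measSel i j

theorem meas_sP {c : ℕ} (i j : Fin (c + 1)) : Measurable fun b : Fin (c + 1) → ℝ => sP i j b := by
  unfold sP
  exact measurable_const.sub (Finset.measurable_sum _ fun i _ => (measurable_pi_apply i).abs)

theorem meas_LZPair {c : ℕ} (i j : Fin (c + 1)) :
    Measurable fun b : Fin (c + 1) → ℝ => LZPair i j b := by
  unfold LZPair
  have hs := meas_sP i j
  refine Measurable.sub (Measurable.sub (Measurable.add (Measurable.sub (Measurable.neg ?_) ?_)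
    measurable_const) ?_) ?_
  · exact Finset.measurable_sum _ fun i _ => (measurable_pi_apply i).abs.log
  · exact hs.log.const_mul 3
  · exact (measurable_const.sub
      ((((measurable_pi_apply i).add (measurable_pi_apply j)).div hs).pow_const 2)).log
  · exact (measurable_const.sub
      ((((measurable_pi_apply i).sub (measurable_pi_apply j)).div hs).pow_const 2)).log

open Classical in
theorem meas_LZC (c : ℕ) : Measurable (LZC c) := by
  unfold LZC
  refine Finset.measurable_sum _ fun i _ => Finset.measurable_sum _ fun j _ => ?_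
  exact Measurable.ite (measSel i j) (meas_LZPair i j) measurable_const

/-! ### null sets -/

theorem null_lin {n : ℕ} (φ : (Fin n → ℝ) →ₗ[ℝ] ℝ) (x : Fin n → ℝ) (hx : φ x ≠ 0) :
    volume {b : Fin n → ℝ | φ b = 0} = 0 := by
  have h := Measure.addHaar_submodule (volume : Measure (Fin n → ℝ)) (LinearMap.ker φ) (by
    intro h
    have : x ∈ LinearMap.ker φ := by rw [h]; trivial
    exact hx (by simpa using this))
  have e : ((LinearMap.ker φ : Submodule ℝ (Fin n → ℝ)) : Set (Fin n → ℝ)) = {b | φ b = 0} := by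
    ext b; simp
  rwa [e] at h

theorem null_coord {n : ℕ} (i : Fin n) : volume {b : Fin n → ℝ | b i = 0} = 0 :=
  null_lin (LinearMap.proj i) (Pi.single i 1) (by simp)

theorem null_eq {n : ℕ} {i j : Fin n} (h : i ≠ j) : volume {b : Fin n → ℝ | b i = b j} = 0 := by
  have h1 := null_lin ((LinearMap.proj i : (Fin n → ℝ) →ₗ[ℝ] ℝ) -
    (LinearMap.proj j : (Fin n → ℝ) →ₗ[ℝ] ℝ)) (Pi.single i 1) (by
      change (Pi.single i 1 : Fin n → ℝ) i - (Pi.single i 1 : Fin n → ℝ) j ≠ 0
      simp [h.symm])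
  have e : {b : Fin n → ℝ | b i = b j} = {b : Fin n → ℝ | ((LinearMap.proj i :
      (Fin n → ℝ) →ₗ[ℝ] ℝ) - (LinearMap.proj j : (Fin n → ℝ) →ₗ[ℝ] ℝ)) b = 0} := by
    ext b
    change b i = b j ↔ b i - b j = 0
    rw [sub_eq_zero]
  rw [e]; exact h1

theorem null_neg {n : ℕ} {i j : Fin n} (h : i ≠ j) : volume {b : Fin n → ℝ | b i = -b j} = 0 := by
  have h1 := null_lin ((LinearMap.proj i : (Fin n → ℝ) →ₗ[ℝ] ℝ) +
    (LinearMap.proj j : (Fin n → ℝ) →ₗ[ℝ] ℝ)) (Pi.single i 1) (by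
      change (Pi.single i 1 : Fin n → ℝ) i + (Pi.single i 1 : Fin n → ℝ) j ≠ 0
      simp [h.symm])
  have e : {b : Fin n → ℝ | b i = -b j} = {b : Fin n → ℝ | ((LinearMap.proj i :
      (Fin n → ℝ) →ₗ[ℝ] ℝ) + (LinearMap.proj j : (Fin n → ℝ) →ₗ[ℝ] ℝ)) b = 0} := by
    ext b
    change b i = -b j ↔ b i + b j = 0
    rw [add_eq_zero_iff_eq_neg]
  rw [e]; exact h1

theorem pol_eq (c : ℕ) : (cubeF c).pol = {b : Fin (c + 1) → ℝ | ∑ i, |b i| ≤ 1} := rfl

theorem meas_pol (c : ℕ) : MeasurableSet (cubeF c).pol := by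
  rw [pol_eq]
  exact measurableSet_le (meas_sumabs _) measurable_const

theorem vol_pol_ne_top (hg : S_gcube) (c : ℕ) : volume (cubeF c).pol ≠ ∞ := by
  intro h
  have h1 := (hg c).1.vol
  have h2 : volume.real (cubeF c).pol = 0 := by simp [Measure.real, h]
  rw [h2, mul_zero] at h1
  have : (0 : ℝ) < 4 ^ (c + 1) / ((c + 1).factorial : ℝ) := by positivity
  linarith

theorem vol_pol (hg : S_gcube) (c : ℕ) :
    volume (cubeF c).pol = ENNReal.ofReal (2 ^ (c + 1) / (c + 1).factorial) := by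
  have h1 := (hg c).1.vol
  have h2 : volume.real (cubeF c).body = 2 ^ (c + 1) := by
    rw [(hg c).2.1, Measure.real, Real.volume_Icc_pi]
    simp only [Pi.one_apply, Pi.neg_apply, sub_neg_eq_add, Finset.prod_const, Finset.card_univ,
      Fintype.card_fin, ENNReal.toReal_pow]
    norm_num
  rw [h2] at h1
  have h3 : volume.real (cubeF c).pol = 2 ^ (c + 1) / (c + 1).factorial := by
    have h4 : (4 : ℝ) ^ (c + 1) = 2 ^ (c + 1) * 2 ^ (c + 1) := by
      rw [← mul_pow]; norm_num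
    rw [h4, mul_div_assoc] at h1
    exact mul_left_cancel₀ (by positivity) h1
  rw [← h3, Measure.real, ENNReal.ofReal_toReal (vol_pol_ne_top hg c)]

/-- the radial formula for the cross-polytope, for functions of the norm -/
theorem rad_abs (hr : S_rad) (hg : S_gcube) (c : ℕ) (Φ : ℝ → ℝ≥0∞) (hΦ : Measurable Φ) :
    ∫⁻ y : Fin (c + 1) → ℝ, Φ (∑ i, |y i|) =
      (∫⁻ r in Ioi (0 : ℝ), ENNReal.ofReal ((c + 1 : ℕ) * r ^ (c + 1 - 1)) * Φ r) *
        volume (cubeF c).pol := by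
  have h := hr (c + 1) (fun y => ∑ i, |y i|) (Nat.succ_pos c) (meas_sumabs _)
    (fun y => Finset.sum_nonneg fun _ _ => abs_nonneg _)
    (fun t ht y => by
      simp only [Pi.smul_apply, smul_eq_mul, abs_mul, abs_of_pos ht, Finset.mul_sum])
    (vol_pol_ne_top hg c) (fun _ => 1) measurable_const (fun _ _ _ => rfl) Φ hΦ
  simpa [pol_eq] using h

theorem null_sphere (hr : S_rad) (hg : S_gcube) (c : ℕ) :
    volume {b : Fin (c + 1) → ℝ | ∑ i, |b i| = 1} = 0 := by
  have h := rad_abs hr hg c (({1} : Set ℝ).indicator 1)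
    (measurable_one.indicator (measurableSet_singleton 1))
  have h1 : ∫⁻ y : Fin (c + 1) → ℝ, (({1} : Set ℝ).indicator (1 : ℝ → ℝ≥0∞)) (∑ i, |y i|) =
      volume {b : Fin (c + 1) → ℝ | ∑ i, |b i| = 1} := by
    rw [← lintegral_indicator_one (measurableSet_eq_fun (meas_sumabs _) measurable_const)]
    congr 1
  rw [← h1, h]
  have h2 : (∫⁻ r in Ioi (0 : ℝ), ENNReal.ofReal ((c + 1 : ℕ) * r ^ (c + 1 - 1)) *
      (({1} : Set ℝ).indicator (1 : ℝ → ℝ≥0∞)) r) = 0 := by
    rw [lintegral_eq_zero_iff (by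
      refine Measurable.mul (by fun_prop) (measurable_one.indicator (measurableSet_singleton 1)))]
    have h3 : ∀ᵐ r : ℝ ∂volume, r ≠ 1 := by
      rw [ae_iff]; simp
    filter_upwards [ae_restrict_of_ae h3] with r hr'
    simp [indicator, hr']
  rw [h2, zero_mul]

theorem mem_Zc_of {c : ℕ} (hc : 1 ≤ c) {b : Fin (c + 1) → ℝ} (h1 : ∑ i, |b i| < 1)
    (h0 : ∀ i, b i ≠ 0) (he : ∀ i j, i ≠ j → |b i| ≠ |b j|) : b ∈ Zc c := by
  refine ⟨h1, h0, ?_⟩
  obtain ⟨i, -, hi⟩ := Finset.exists_min_image (Finset.univ : Finset (Fin (c + 1)))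
    (fun i => |b i|) Finset.univ_nonempty
  have hne : (Finset.univ.erase i : Finset (Fin (c + 1))).Nonempty := by
    rw [← Finset.card_pos, Finset.card_erase_of_mem (Finset.mem_univ i), Finset.card_univ,
      Fintype.card_fin]
    omega
  obtain ⟨j, hj, hj'⟩ := Finset.exists_min_image _ (fun i => |b i|) hne
  have hij : i ≠ j := fun h => by simp [h] at hj
  refine ⟨i, j, lt_of_le_of_ne (hi j (Finset.mem_univ j)) (he i j hij), ?_⟩
  intro l hl hl'
  exact lt_of_le_of_ne (hj' l (Finset.mem_erase.2 ⟨hl, Finset.mem_univ l⟩)) (he j l (Ne.symm hl'))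

theorem null_diff (hr : S_rad) (hg : S_gcube) {c : ℕ} (hc : 1 ≤ c) :
    volume ((cubeF c).pol \ Zc c) = 0 := by
  have hsub : (cubeF c).pol \ Zc c ⊆ {b : Fin (c + 1) → ℝ | ∑ i, |b i| = 1} ∪
      ((⋃ i, {b : Fin (c + 1) → ℝ | b i = 0}) ∪
      ⋃ p : {p : Fin (c + 1) × Fin (c + 1) // p.1 ≠ p.2},
        ({b : Fin (c + 1) → ℝ | b p.1.1 = b p.1.2} ∪
          {b : Fin (c + 1) → ℝ | b p.1.1 = -b p.1.2})) := by
    rintro b ⟨hb, hb'⟩
    rw [pol_eq] at hb
    by_contra hcon
    simp only [mem_union, mem_iUnion, mem_ofPred_eq, not_or, not_exists] at hcon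
    obtain ⟨c1, c2, c3⟩ := hcon
    refine hb' (mem_Zc_of hc (lt_of_le_of_ne hb c1) c2 fun i j hij he => ?_)
    rcases abs_eq_abs.1 he with h | h
    · exact (c3 ⟨(i, j), hij⟩).1 h
    · exact (c3 ⟨(i, j), hij⟩).2 h
  refine measure_mono_null hsub ?_
  refine measure_union_null (null_sphere hr hg c) (measure_union_null ?_ ?_)
  · exact measure_iUnion_null fun i => null_coord i
  · exact measure_iUnion_null fun p => measure_union_null (null_eq p.2) (null_neg p.2)

/-! ### means of the logarithms -/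

theorem rad_pol (hr : S_rad) (hg : S_gcube) (c : ℕ) (g : ℝ → ℝ) (hm : Measurable g) :
    ∫⁻ b in (cubeF c).pol, ENNReal.ofReal (g (∑ i, |b i|)) =
      (∫⁻ r in Ioc (0 : ℝ) 1, ENNReal.ofReal ((c + 1 : ℕ) * r ^ (c + 1 - 1)) *
        ENNReal.ofReal (g r)) * volume (cubeF c).pol := by
  have h := rad_abs hr hg c ((Iic (1 : ℝ)).indicator fun r => ENNReal.ofReal (g r))
    (hm.ennreal_ofReal.indicator measurableSet_Iic)
  have h1 : ∫⁻ y : Fin (c + 1) → ℝ, ((Iic (1 : ℝ)).indicator fun r => ENNReal.ofReal (g r))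
      (∑ i, |y i|) = ∫⁻ b in (cubeF c).pol, ENNReal.ofReal (g (∑ i, |b i|)) := by
    rw [← lintegral_indicator (meas_pol c)]
    congr 1
  rw [← h1, h]
  congr 1
  have h2 : ∀ r : ℝ, ENNReal.ofReal ((c + 1 : ℕ) * r ^ (c + 1 - 1)) *
      ((Iic (1 : ℝ)).indicator fun r => ENNReal.ofReal (g r)) r =
      (Iic (1 : ℝ)).indicator (fun r => ENNReal.ofReal ((c + 1 : ℕ) * r ^ (c + 1 - 1)) *
        ENNReal.ofReal (g r)) r := by
    intro r
    by_cases hr1 : r ∈ Iic (1 : ℝ)
    · rw [indicator_of_mem hr1, indicator_of_mem hr1]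
    · rw [indicator_of_notMem hr1, indicator_of_notMem hr1, mul_zero]
  simp_rw [h2]
  rw [lintegral_indicator measurableSet_Iic, Measure.restrict_restrict measurableSet_Iic]
  congr 2
  ext r
  simp [and_comm]

theorem HH_zero : HH 0 = 0 := by simp [HH]

theorem mean_rho (hr : S_rad) (hg : S_gcube) (hb : S_beta) (c : ℕ) :
    ∫⁻ b in (cubeF c).pol, ENNReal.ofReal (-Real.log (1 - ∑ i, |b i|)) =
      ENNReal.ofReal (HH (c + 1)) * volume (cubeF c).pol := by
  rw [rad_pol hr hg c (fun r => -Real.log (1 - r))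
    ((measurable_const.sub measurable_id).log.neg)]
  congr 1
  have h := (hb (c + 1) 0 (Nat.succ_pos c)).2.2
  rw [HH_zero] at h
  simp only [pow_zero, mul_one, Nat.factorial_zero, Nat.cast_one, add_zero, sub_zero] at h
  rw [div_self (by positivity), one_mul] at h
  rw [← h]
  refine setLIntegral_congr_fun measurableSet_Ioc fun r hr => ?_
  have : (0 : ℝ) ≤ ((c + 1 : ℕ) : ℝ) * r ^ (c + 1 - 1) := by
    have := hr.1.le
    positivity
  rw [← ENNReal.ofReal_mul this]

theorem lint_abs (Φ : ℝ → ℝ≥0∞) :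
    ∫⁻ t : ℝ, Φ |t| = 2 * ∫⁻ r in Ioi (0 : ℝ), Φ r := by
  rw [← lintegral_add_compl (fun t : ℝ => Φ |t|) (measurableSet_Iic (a := (0 : ℝ))), compl_Iic,
    two_mul]
  congr 1
  · have h := (Measure.measurePreserving_neg (volume : Measure ℝ)).setLIntegral_comp_preimage_emb
      (Homeomorph.neg ℝ).measurableEmbedding (fun t => Φ |t|) (Ici 0)
    have h1 : (Neg.neg ⁻¹' Ici (0 : ℝ)) = Iic 0 := by ext; simp
    rw [h1] at h
    simp only [abs_neg] at h
    rw [h, setLIntegral_congr Ioi_ae_eq_Ici.symm]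
    refine setLIntegral_congr_fun measurableSet_Ioi fun r hr => ?_
    rw [abs_of_pos hr]
  · refine setLIntegral_congr_fun measurableSet_Ioi fun r hr => ?_
    rw [abs_of_pos hr]

theorem vol_slice (c : ℕ) (s : ℝ) :
    volume {w : Fin (c + 1) → ℝ | ∑ i, |w i| ≤ s} =
      ENNReal.ofReal ((max s 0) ^ (c + 1)) * volume (cubeF c).pol := by
  rcases lt_trichotomy s 0 with h | h | h
  · have : {w : Fin (c + 1) → ℝ | ∑ i, |w i| ≤ s} = ∅ := by
      ext w
      simp only [mem_ofPred_eq, mem_empty_iff_false, iff_false, not_le]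
      exact lt_of_lt_of_le h (Finset.sum_nonneg fun _ _ => abs_nonneg _)
    rw [this, max_eq_right h.le]
    simp
  · subst h
    have : {w : Fin (c + 1) → ℝ | ∑ i, |w i| ≤ 0} ⊆ {w : Fin (c + 1) → ℝ | w 0 = 0} := by
      intro w hw
      simp only [mem_ofPred_eq] at hw ⊢
      have := (abs_le_sum w 0).trans hw
      exact abs_nonpos_iff.1 this
    rw [measure_mono_null this (null_coord 0)]
    simp
  · have : {w : Fin (c + 1) → ℝ | ∑ i, |w i| ≤ s} = s • (cubeF c).pol := by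
      ext w
      rw [mem_smul_set_iff_inv_smul_mem₀ h.ne', pol_eq]
      simp only [mem_ofPred_eq, Pi.smul_apply, smul_eq_mul, abs_mul, abs_of_pos (inv_pos.2 h),
        ← Finset.mul_sum]
      rw [inv_mul_le_iff₀ h, mul_one]
    rw [this, Measure.addHaar_smul, max_eq_left h.le]
    simp [abs_of_pos h]

theorem two_mul_ofReal (a b : ℝ) (ha : 0 ≤ a) :
    2 * (ENNReal.ofReal a * ENNReal.ofReal b) = ENNReal.ofReal (2 * (a * b)) := by
  rw [← ENNReal.ofReal_mul ha, ENNReal.ofReal_mul (by norm_num : (0 : ℝ) ≤ 2)]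
  norm_num

theorem mean_coord (hg : S_gcube) (hb : S_beta) (c : ℕ) (l : Fin (c + 1 + 1)) :
    ∫⁻ b in (cubeF (c + 1)).pol, ENNReal.ofReal (-Real.log |b l|) =
      ENNReal.ofReal (HH (c + 1 + 1)) * volume (cubeF (c + 1)).pol := by
  rw [← lintegral_indicator (meas_pol (c + 1))]
  have hmeas : Measurable ((cubeF (c + 1)).pol.indicator
      fun b : Fin (c + 1 + 1) → ℝ => ENNReal.ofReal (-Real.log |b l|)) :=
    ((measurable_pi_apply l).abs.log.neg.ennreal_ofReal).indicator (meas_pol (c + 1))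
  have e := (volume_preserving_piFinSuccAbove (fun _ : Fin (c + 1 + 1) => ℝ) l).symm
  rw [← e.lintegral_comp hmeas]
  have hfub := lintegral_prod (μ := (volume : Measure ℝ))
    (ν := (volume : Measure (Fin (c + 1) → ℝ)))
    (fun a : ℝ × (Fin (c + 1) → ℝ) => ((cubeF (c + 1)).pol.indicator
      fun b : Fin (c + 1 + 1) → ℝ => ENNReal.ofReal (-Real.log |b l|))
        ((MeasurableEquiv.piFinSuccAbove (fun _ : Fin (c + 1 + 1) => ℝ) l).symm a))
    (hmeas.comp e.measurable).aemeasurable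
  refine hfub.trans ?_
  have inner : ∀ t : ℝ, (∫⁻ w : Fin (c + 1) → ℝ, ((cubeF (c + 1)).pol.indicator
      fun b : Fin (c + 1 + 1) → ℝ => ENNReal.ofReal (-Real.log |b l|))
        ((MeasurableEquiv.piFinSuccAbove (fun _ : Fin (c + 1 + 1) => ℝ) l).symm (t, w))) =
      (fun r => ENNReal.ofReal (-Real.log r) * (ENNReal.ofReal ((max (1 - r) 0) ^ (c + 1)) *
        volume (cubeF c).pol)) |t| := by
    intro t
    have h1 : ∀ w : Fin (c + 1) → ℝ, ((cubeF (c + 1)).pol.indicator
      fun b : Fin (c + 1 + 1) → ℝ => ENNReal.ofReal (-Real.log |b l|))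
        ((MeasurableEquiv.piFinSuccAbove (fun _ : Fin (c + 1 + 1) => ℝ) l).symm (t, w)) =
        {w : Fin (c + 1) → ℝ | ∑ i, |w i| ≤ 1 - |t|}.indicator
          (fun _ => ENNReal.ofReal (-Real.log |t|)) w := by
      intro w
      have hin : (MeasurableEquiv.piFinSuccAbove (fun _ : Fin (c + 1 + 1) => ℝ) l).symm (t, w) =
        l.insertNth t w := rfl
      rw [hin]
      simp only [indicator, pol_eq, mem_ofPred_eq, Fin.sum_univ_succAbove _ l,
        Fin.insertNth_apply_same, Fin.insertNth_apply_succAbove, le_sub_iff_add_le']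
    simp_rw [h1]
    rw [lintegral_indicator (measurableSet_le (meas_sumabs _) measurable_const),
      setLIntegral_const, vol_slice]
  change ∫⁻ t : ℝ, (∫⁻ w : Fin (c + 1) → ℝ, ((cubeF (c + 1)).pol.indicator
      fun b : Fin (c + 1 + 1) → ℝ => ENNReal.ofReal (-Real.log |b l|))
        ((MeasurableEquiv.piFinSuccAbove (fun _ : Fin (c + 1 + 1) => ℝ) l).symm (t, w))) = _
  simp_rw [inner]
  rw [lint_abs (fun r => ENNReal.ofReal (-Real.log r) * (ENNReal.ofReal ((max (1 - r) 0) ^ (c + 1)) *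
        volume (cubeF c).pol))]
  have h2 : ∫⁻ r in Ioi (0 : ℝ), ENNReal.ofReal (-Real.log r) *
      (ENNReal.ofReal ((max (1 - r) 0) ^ (c + 1)) * volume (cubeF c).pol) =
      (∫⁻ r in Ioc (0 : ℝ) 1, ENNReal.ofReal ((1 : ℕ) * r ^ (1 - 1) * (1 - r) ^ (c + 1) *
        -Real.log r)) * volume (cubeF c).pol := by
    rw [← lintegral_mul_const' _ _ (vol_pol_ne_top hg c)]
    rw [← lintegral_indicator measurableSet_Ioi, ← lintegral_indicator measurableSet_Ioc]
    congr 1
    funext r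
    by_cases h0 : 0 < r
    · by_cases h1 : r ≤ 1
      · rw [indicator_of_mem (by exact h0), indicator_of_mem (by exact ⟨h0, h1⟩),
          max_eq_left (by linarith), ← mul_assoc, ← ENNReal.ofReal_mul
            (neg_nonneg.2 (Real.log_nonpos h0.le h1))]
        congr 2
        simp
        ring
      · rw [indicator_of_mem (by exact h0), indicator_of_notMem (by simp [h1]),
          max_eq_right (by linarith [not_le.1 h1])]
        simp
    · rw [indicator_of_notMem (by simpa using h0), indicator_of_notMem (by simp [h0])]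
  have hH' : 0 ≤ HH (1 + (c + 1)) := by
    unfold HH
    exact Finset.sum_nonneg fun i _ => by positivity
  rw [h2, (hb 1 (c + 1) le_rfl).2.1, vol_pol hg c, vol_pol hg (c + 1), Nat.sub_self, HH_zero,
    sub_zero]
  have hH : 0 ≤ HH (c + 1 + 1) := by
    unfold HH
    exact Finset.sum_nonneg fun i _ => by positivity
  rw [two_mul_ofReal _ _ (mul_nonneg (by positivity) hH'), ← ENNReal.ofReal_mul hH, add_comm 1 (c + 1)]
  congr 1
  rw [Nat.factorial_succ (c + 1), Nat.factorial_one]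
  field_simp
  push_cast
  ring

/-! ### the total mean -/

/-- the functional on the points without ties -/
def AA (c : ℕ) (b : Fin (c + 1) → ℝ) : ℝ := (∑ l, -Real.log |b l|) + -Real.log (1 - ∑ l, |b l|)

theorem HH_nonneg (n : ℕ) : 0 ≤ HH n := by
  unfold HH
  exact Finset.sum_nonneg fun i _ => by positivity

theorem mean_A (hr : S_rad) (hg : S_gcube) (hb : S_beta) (c : ℕ) :
    ∫⁻ b in (cubeF (c + 1)).pol, ENNReal.ofReal (AA (c + 1) b) =
      ENNReal.ofReal (((c + 1 + 1 : ℕ) + 1) * HH (c + 1 + 1)) * volume (cubeF (c + 1)).pol := by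
  have h1 : ∫⁻ b in (cubeF (c + 1)).pol, ENNReal.ofReal (AA (c + 1) b) =
      ∫⁻ b in (cubeF (c + 1)).pol, ((∑ l, ENNReal.ofReal (-Real.log |b l|)) +
        ENNReal.ofReal (-Real.log (1 - ∑ l, |b l|))) := by
    refine setLIntegral_congr_fun (meas_pol _) fun b hb => ?_
    rw [pol_eq] at hb
    have hb' : ∑ i, |b i| ≤ 1 := hb
    have n1 : ∀ l ∈ Finset.univ, 0 ≤ -Real.log |b l| := fun l _ =>
      neg_nonneg.2 (Real.log_nonpos (abs_nonneg _) ((abs_le_sum b l).trans hb'))
    have n2 : 0 ≤ -Real.log (1 - ∑ l, |b l|) := by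
      refine neg_nonneg.2 (Real.log_nonpos (by linarith) ?_)
      have : 0 ≤ ∑ i, |b i| := Finset.sum_nonneg fun _ _ => abs_nonneg _
      linarith
    unfold AA
    rw [ENNReal.ofReal_add (Finset.sum_nonneg n1) n2, ENNReal.ofReal_sum_of_nonneg n1]
  have hl : ∀ l : Fin (c + 1 + 1), Measurable fun b : Fin (c + 1 + 1) → ℝ =>
      ENNReal.ofReal (-Real.log |b l|) := fun l =>
    (measurable_pi_apply l).abs.log.neg.ennreal_ofReal
  have hls : Measurable fun b : Fin (c + 1 + 1) → ℝ => ∑ l, ENNReal.ofReal (-Real.log |b l|) :=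
    Finset.measurable_sum _ fun l _ => hl l
  rw [h1, lintegral_add_left hls, lintegral_finsetSum _ (fun l _ => hl l),
    mean_rho hr hg hb (c + 1)]
  simp_rw [mean_coord hg hb c]
  rw [Finset.sum_const, Finset.card_univ, Fintype.card_fin]
  have e : ENNReal.ofReal (((c + 1 + 1 : ℕ) + 1) * HH (c + 1 + 1)) =
      (c + 1 + 1 : ℕ) * ENNReal.ofReal (HH (c + 1 + 1)) + ENNReal.ofReal (HH (c + 1 + 1)) := by
    rw [add_mul, one_mul, ENNReal.ofReal_add (mul_nonneg (by positivity) (HH_nonneg _))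
      (HH_nonneg _), ENNReal.ofReal_mul (by positivity), ENNReal.ofReal_natCast]
  rw [e]
  simp only [nsmul_eq_mul]
  ring

open Classical in
/-- the gain as a function of the point -/
def GN (c : ℕ) (b : Fin (c + 1) → ℝ) : ℝ≥0∞ :=
  ∑ i, ∑ j, {b : Fin (c + 1) → ℝ | b ∈ Zc c ∧ selP i j b}.indicator
    (fun b => ENNReal.ofReal (gain |b i| |b j| (1 - ∑ l, |b l|))) b

theorem meas_gain (c : ℕ) (i j : Fin (c + 1)) :
    Measurable fun b : Fin (c + 1) → ℝ => gain |b i| |b j| (1 - ∑ l, |b l|) := by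
  unfold gain
  have hi : Measurable fun b : Fin (c + 1) → ℝ => |b i| := (measurable_pi_apply i).abs
  have hj : Measurable fun b : Fin (c + 1) → ℝ => |b j| := (measurable_pi_apply j).abs
  have hs : Measurable fun b : Fin (c + 1) → ℝ => 1 - ∑ l, |b l| :=
    measurable_const.sub (meas_sumabs _)
  exact (((measurable_const.add (hs.div (hi.const_mul 2))).log.add
    (measurable_const.add (hs.div (hj.const_mul 2))).log).sub
    (measurable_const.add (hs.div ((hs.add (hi.const_mul 2)).add (hj.const_mul 2)))).log)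

theorem meas_gain3 : Measurable fun t : ℝ × ℝ × ℝ => ENNReal.ofReal (gain t.1 t.2.1 t.2.2) := by
  unfold gain
  have hi : Measurable fun t : ℝ × ℝ × ℝ => t.1 := measurable_fst
  have hj : Measurable fun t : ℝ × ℝ × ℝ => t.2.1 := measurable_fst.comp measurable_snd
  have hs : Measurable fun t : ℝ × ℝ × ℝ => t.2.2 := measurable_snd.comp measurable_snd
  exact (((measurable_const.add (hs.div (hi.const_mul 2))).log.add
    (measurable_const.add (hs.div (hj.const_mul 2))).log).sub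
    (measurable_const.add (hs.div ((hs.add (hi.const_mul 2)).add
      (hj.const_mul 2)))).log).ennreal_ofReal

theorem gain_smul (t x y s : ℝ) (ht : 0 < t) : gain (t * x) (t * y) (t * s) = gain x y s := by
  unfold gain
  rw [show 2 * (t * x) = t * (2 * x) by ring, show 2 * (t * y) = t * (2 * y) by ring,
    show t * s + t * (2 * x) + t * (2 * y) = t * (s + 2 * x + 2 * y) by ring,
    mul_div_mul_left _ _ ht.ne', mul_div_mul_left _ _ ht.ne', mul_div_mul_left _ _ ht.ne']

theorem meas_set (c : ℕ) (i j : Fin (c + 1)) :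
    MeasurableSet {b : Fin (c + 1) → ℝ | b ∈ Zc c ∧ selP i j b} :=
  (measZc c).inter (measSel i j)

theorem meas_GN (c : ℕ) : Measurable (GN c) := by
  unfold GN
  exact Finset.measurable_sum _ fun i _ => Finset.measurable_sum _ fun j _ =>
    (meas_gain c i j).ennreal_ofReal.indicator (meas_set c i j)

theorem Zc_sub_pol (c : ℕ) : Zc c ⊆ (cubeF c).pol := by
  intro b hb
  rw [pol_eq]
  exact hb.1.le

theorem GN_zero {c : ℕ} {b : Fin (c + 1) → ℝ} (hb : b ∉ Zc c) : GN c b = 0 := by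
  unfold GN
  refine Finset.sum_eq_zero fun i _ => Finset.sum_eq_zero fun j _ => ?_
  rw [indicator_of_notMem]
  exact fun h => hb h.1

theorem GN_eq {c : ℕ} {b : Fin (c + 1) → ℝ} (hb : b ∈ Zc c) {i j : Fin (c + 1)}
    (h : selP i j b) : GN c b = ENNReal.ofReal (gain |b i| |b j| (1 - ∑ l, |b l|)) := by
  classical
  unfold GN
  have : ∀ i' j' : Fin (c + 1), {b : Fin (c + 1) → ℝ | b ∈ Zc c ∧ selP i' j' b}.indicator
      (fun b => ENNReal.ofReal (gain |b i'| |b j'| (1 - ∑ l, |b l|))) b =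
      if selP i' j' b then ENNReal.ofReal (gain |b i'| |b j'| (1 - ∑ l, |b l|)) else 0 := by
    intro i' j'
    simp [indicator, hb]
  simp_rw [this]
  exact sum_sel h fun i' j' => ENNReal.ofReal (gain |b i'| |b j'| (1 - ∑ l, |b l|))

theorem lint_GN (h4 : S_z4) (h5 : S_z5) (c : ℕ) (hc : 1 ≤ c) :
    ENNReal.ofReal (HH (c + 1) - dC (c + 1)) * volume (cubeF c).pol ≤
      ∫⁻ b in (cubeF c).pol, GN c b := by
  have e1 : ∫⁻ b in (cubeF c).pol, GN c b = ∫⁻ b, GN c b := by
    rw [← lintegral_indicator (meas_pol c)]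
    congr 1
    funext b
    by_cases hb : b ∈ (cubeF c).pol
    · rw [indicator_of_mem hb]
    · rw [indicator_of_notMem hb, GN_zero fun h => hb (Zc_sub_pol c h)]
  have e2 : ∫⁻ b, GN c b = ∑ i, ∑ j, ∫⁻ b in {b : Fin (c + 1) → ℝ | b ∈ Zc c ∧ selP i j b},
      ENNReal.ofReal (gain |b i| |b j| (1 - ∑ l, |b l|)) := by
    unfold GN
    rw [lintegral_finsetSum _ fun i _ => Finset.measurable_sum _ fun j _ =>
      (meas_gain c i j).ennreal_ofReal.indicator (meas_set c i j)]
    refine Finset.sum_congr rfl fun i _ => ?_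
    rw [lintegral_finsetSum _ fun j _ =>
      (meas_gain c i j).ennreal_ofReal.indicator (meas_set c i j)]
    refine Finset.sum_congr rfl fun j _ => ?_
    rw [lintegral_indicator (meas_set c i j)]
  rw [e1, e2, h4 c hc (fun x y s => ENNReal.ofReal (gain x y s)) meas_gain3
    (fun t x y s ht => by rw [gain_smul t x y s ht]), mul_comm]
  exact mul_le_mul_right (h5 c hc) _

theorem mean_main (hr : S_rad) (hg : S_gcube) (hb : S_beta) (h4 : S_z4) (h5 : S_z5) (c : ℕ) :
    ∫⁻ b in (cubeF (c + 1)).pol, ENNReal.ofReal (LZC (c + 1) b) ≤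
      ENNReal.ofReal (((c + 1 + 1 : ℕ) : ℝ) * HH (c + 1 + 1) + dC (c + 1 + 1)) *
        volume (cubeF (c + 1)).pol := by
  have hZ : ∀ᵐ b ∂(volume.restrict (cubeF (c + 1)).pol), b ∈ Zc (c + 1) := by
    rw [ae_restrict_iff' (meas_pol _), ae_iff]
    have := null_diff hr hg (c := c + 1) (by omega)
    convert this using 2
    ext b
    simp
  have hsum : (∫⁻ b in (cubeF (c + 1)).pol, ENNReal.ofReal (LZC (c + 1) b)) +
      (∫⁻ b in (cubeF (c + 1)).pol, GN (c + 1) b) =
      ∫⁻ b in (cubeF (c + 1)).pol, ENNReal.ofReal (AA (c + 1) b) := by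
    rw [← lintegral_add_left (meas_LZC _).ennreal_ofReal]
    refine lintegral_congr_ae ?_
    filter_upwards [hZ] with b hb
    obtain ⟨i, j, hs⟩ := hb.2.2
    rw [LZC_eq hs, GN_eq hb hs, ← ENNReal.ofReal_add (LZPair_nonneg (selP_ne hs) hb.1 hb.2.1)
      (gain_nonneg (abs_pos.2 (hb.2.1 i)) (abs_pos.2 (hb.2.1 j)) (by linarith [hb.1])),
      pair_identity (selP_ne hs) hb.1 hb.2.1]
    rfl
  have hG := lint_GN h4 h5 (c + 1) (by omega)
  rw [mean_A hr hg hb c] at hsum
  set V := volume (cubeF (c + 1)).pol with hV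
  set X := ∫⁻ b in (cubeF (c + 1)).pol, ENNReal.ofReal (LZC (c + 1) b)
  set Y := ∫⁻ b in (cubeF (c + 1)).pol, GN (c + 1) b
  have hVt : V ≠ ∞ := vol_pol_ne_top hg (c + 1)
  have hle : X + ENNReal.ofReal (HH (c + 1 + 1) - dC (c + 1 + 1)) * V ≤
      ENNReal.ofReal (((c + 1 + 1 : ℕ) + 1) * HH (c + 1 + 1)) * V := by
    rw [← hsum]
    gcongr
  have hXt : X ≠ ∞ := ne_top_of_le_ne_top (ENNReal.mul_ne_top ENNReal.ofReal_ne_top hVt)
    (le_self_add.trans hle)
  have hr1 := ENNReal.toReal_mono (ENNReal.mul_ne_top ENNReal.ofReal_ne_top hVt) hle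
  rw [ENNReal.toReal_add hXt (ENNReal.mul_ne_top ENNReal.ofReal_ne_top hVt),
    ENNReal.toReal_mul, ENNReal.toReal_mul, ENNReal.toReal_ofReal
      (mul_nonneg (by positivity) (HH_nonneg _))] at hr1
  have hle2 : HH (c + 1 + 1) - dC (c + 1 + 1) ≤
      (ENNReal.ofReal (HH (c + 1 + 1) - dC (c + 1 + 1))).toReal := by
    rw [ENNReal.toReal_ofReal']; exact le_max_left _ _
  have hV0 : 0 ≤ V.toReal := ENNReal.toReal_nonneg
  have hfin : X.toReal ≤ (((c + 1 + 1 : ℕ) : ℝ) * HH (c + 1 + 1) + dC (c + 1 + 1)) * V.toReal := by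
    have := mul_le_mul_of_nonneg_right hle2 hV0
    nlinarith
  calc X = ENNReal.ofReal X.toReal := (ENNReal.ofReal_toReal hXt).symm
    _ ≤ ENNReal.ofReal ((((c + 1 + 1 : ℕ) : ℝ) * HH (c + 1 + 1) + dC (c + 1 + 1)) * V.toReal) :=
        ENNReal.ofReal_le_ofReal hfin
    _ = _ := by
        rw [ENNReal.ofReal_mul' hV0, ENNReal.ofReal_toReal hVt]

theorem g_nonneg (c : ℕ) : 0 ≤ ((c + 1 + 1 : ℕ) : ℝ) * HH (c + 1 + 1) + dC (c + 1 + 1) := by
  unfold dC ww
  rw [if_neg (by omega)]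
  have h1 := Real.one_half_lt_eulerMascheroniConstant
  have h2 := Real.log_two_lt_d9
  have h3 : 0 ≤ Real.log ((c + 1 + 1).factorial : ℝ) := Real.log_nonneg (by
    exact_mod_cast Nat.succ_le_of_lt (Nat.factorial_pos _))
  have h4 : (2 : ℝ) ≤ ((c + 1 + 1 : ℕ) : ℝ) := by
    push_cast
    have : (0 : ℝ) ≤ (c : ℝ) := by positivity
    linarith
  nlinarith

/-- **Z6**: certificates for the norms of the cubes -/
theorem zcube : S_z6 := by
  intro h1 h2 h3 h4 h5 hg hr hb c
  rcases c with _ | c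
  · refine ⟨fun b a => (1 + sb a.2 * b 0) / 2, fun b => Real.log 2 - Real.log (1 - b 0 ^ 2),
      {b | |b 0| < 1}, h1.1, ?_⟩
    have h := h1.2
    have e : ((0 : ℕ) + 1 : ℝ) * HH (0 + 1) + dC (0 + 1) = 2 - Real.log 2 := by
      simp [HH, dC]
      ring
    rw [e]
    exact h
  · refine ⟨lamC (c + 1), LZC (c + 1), Zc (c + 1), h3 (c + 1) (by omega), ?_⟩
    have hgn := g_nonneg c
    have hmm := mean_main hr hg hb h4 h5 c
    push_cast at hgn hmm ⊢
    exact
    { measZ := measZc _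
      nullZ := null_diff hr hg (by omega)
      subZ := fun b hb => hb.1
      meas := meas_LZC _
      nonneg := by
        intro b hb
        obtain ⟨i, j, hs⟩ := hb.2.2
        rw [LZC_eq hs]
        exact LZPair_nonneg (selP_ne hs) hb.1 hb.2.1
      cert := by
        intro b hb τ
        obtain ⟨i, j, hs⟩ := hb.2.2
        have h := h2 (c + 1) i j (selP_ne hs) b hb.1 hb.2.1 τ
        rw [LZC_eq hs]
        simp_rw [lamC_eq hb hs]
        exact h
      g_nonneg := hgn
      mean := hmm }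

end Pool.Agent.TH656.LP931
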